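import Mathlib
import Pool.Agent.W854.DY.KF
import Pool.Agent.Helper827.Brou.Spec

/-!
# The weighted Brouwer inequality from the unweighted one

The weighted inequality for `A` follows from Brouwer's inequality for the threshold graphs of `A`
(`part1`); Brouwer's inequality itself is `Pool.Agent.Helper827.Brou.twoParam` of the starting
files.
-/

set_option autoImplicit false

open Pool.Agent.W854.DY Matrix

namespace Pool.Agent.H212.WB

/-- The Laplacian of a weight matrix. -/
def wLap {n : ℕ} (A : Matrix (Fin n) (Fin n) ℝ) : Matrix (Fin n) (Fin n) ℝ :=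
  Matrix.diagonal (fun i => ∑ j, A i j) - A

/-- The inequality of the problem for `A` and `k`, in the form of the frozen statement. -/
def WeightedAt {n : ℕ} (A : Matrix (Fin n) (Fin n) ℝ) (k : ℕ) : Prop :=
  ∀ (hL : (wLap A).IsHermitian), ∀ s : Finset (Fin n), s.card = k →
    ∃ P : Finset (Fin n × Fin n), P.card = (k + 1).choose 2 ∧ (∀ p ∈ P, p.1 < p.2) ∧
      ∑ i ∈ s, hL.eigenvalues i ≤
        (∑ i, ∑ j, if i < j then A i j else 0) + ∑ p ∈ P, A p.1 p.2

open Classical in
/-- Brouwer's inequality for the graph `G` and `k`. -/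
def BrouwerAt {n : ℕ} (G : SimpleGraph (Fin n)) (k : ℕ) : Prop :=
  ∀ (hL : (G.lapMatrix ℝ).IsHermitian), ∀ s : Finset (Fin n), s.card = k →
    ∑ i ∈ s, hL.eigenvalues i ≤ (G.edgeFinset.card : ℝ) + ((k + 1).choose 2 : ℕ)

/-- The threshold graph of `A` at `t`. -/
def thr {n : ℕ} (A : Matrix (Fin n) (Fin n) ℝ) (t : ℝ) : SimpleGraph (Fin n) where
  Adj i j := i ≠ j ∧ t ≤ A i j ∧ t ≤ A j i
  symm := ⟨fun _ _ h => ⟨h.1.symm, h.2.2, h.2.1⟩⟩
  loopless := ⟨fun _ h => h.1 rfl⟩

/-- `A` is a matrix of weights: symmetric, nonnegative, with zero diagonal. -/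
def IsWeight {n : ℕ} (A : Matrix (Fin n) (Fin n) ℝ) : Prop :=
  A.IsSymm ∧ (∀ i j, 0 ≤ A i j) ∧ ∀ i, A i i = 0

/-- the pairs -/
def U (n : ℕ) : Finset (Fin n × Fin n) := Finset.univ.filter fun p => p.1 < p.2

theorem sum_pairs {n : ℕ} (f : Fin n → Fin n → ℝ) (hs : ∀ a b, f a b = f b a)
    (h0 : ∀ a, f a a = 0) : ∑ a, ∑ b, f a b = 2 * ∑ p ∈ U n, f p.1 p.2 := by
  have h1 : ∀ a b, f a b = (if a < b then f a b else 0) + (if b < a then f b a else 0) := by
    intro a b
    rcases lt_trichotomy a b with h | h | h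
    · simp [h, h.not_gt]
    · subst h; simp [h0]
    · simp [h, h.not_gt, hs a b]
  have h2 : ∑ p ∈ U n, f p.1 p.2 = ∑ a, ∑ b, if a < b then f a b else 0 := by
    unfold U
    rw [Finset.sum_filter, Fintype.sum_prod_type]
  have h3 : ∑ a, ∑ b, f a b = (∑ a, ∑ b, if a < b then f a b else 0) +
      ∑ a, ∑ b, if b < a then f b a else 0 := by
    rw [← Finset.sum_add_distrib]
    refine Finset.sum_congr rfl fun a _ => ?_
    rw [← Finset.sum_add_distrib]
    exact Finset.sum_congr rfl fun b _ => h1 a b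
  rw [h3, Finset.sum_comm (f := fun a b => if b < a then f b a else 0), h2]
  ring

theorem sum_U {n : ℕ} (A : Matrix (Fin n) (Fin n) ℝ) :
    (∑ i, ∑ j, if i < j then A i j else 0) = ∑ p ∈ U n, A p.1 p.2 := by
  unfold U
  rw [Finset.sum_filter, Fintype.sum_prod_type]

theorem card_U (n : ℕ) : (U n).card = n.choose 2 := by
  have h := sum_pairs (n := n) (fun a b => if a = b then 0 else 1)
    (fun a b => by by_cases h : a = b <;> simp [h, eq_comm]) (fun a => by simp)
  have h1 : ∑ p ∈ U n, (if p.1 = p.2 then (0:ℝ) else 1) = (U n).card := by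
    rw [Finset.card_eq_sum_ones, Nat.cast_sum]
    refine Finset.sum_congr rfl fun p hp => ?_
    have : p.1 < p.2 := (Finset.mem_filter.1 hp).2
    simp [this.ne]
  have h2 : ∑ a : Fin n, ∑ b : Fin n, (if a = b then (0:ℝ) else 1) = n * (n - 1) := by
    have : ∀ a : Fin n, ∑ b : Fin n, (if a = b then (0:ℝ) else 1) = n - 1 := by
      intro a
      have h3 : ∀ b : Fin n, (if a = b then (0:ℝ) else 1) = 1 - if a = b then 1 else 0 := by
        intro b; by_cases h : a = b <;> simp [h]
      simp_rw [h3]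
      rw [Finset.sum_sub_distrib]
      simp
    simp_rw [this]
    simp
    ring
  rw [h1, h2] at h
  have h4 : ((n.choose 2 : ℕ) : ℝ) = n * (n - 1) / 2 := Nat.cast_choose_two ℝ n
  have h5 : ((U n).card : ℝ) = ((n.choose 2 : ℕ) : ℝ) := by rw [h4]; linarith
  exact_mod_cast h5

/-- The quadratic form of the Laplacian. -/
theorem lap_qf {n : ℕ} (A : Matrix (Fin n) (Fin n) ℝ) (hA : ∀ a b, A a b = A b a)
    (v : Fin n → ℝ) :
    qf (wLap A) v = ∑ p ∈ U n, A p.1 p.2 * (v p.1 - v p.2) ^ 2 := by
  have h := sum_pairs (n := n) (fun a b => A a b * (v a - v b) ^ 2)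
    (fun a b => by rw [hA a b]; ring) (fun a => by ring)
  have h1 : qf (wLap A) v = (1/2) * ∑ a, ∑ b, A a b * (v a - v b) ^ 2 := by
    unfold qf wLap
    have e1 : ∀ a b, (Matrix.diagonal (fun i => ∑ j, A i j) - A) a b * v a * v b =
        (if a = b then (∑ j, A a j) * v a * v a else 0) - A a b * v a * v b := by
      intro a b
      rw [Matrix.sub_apply, Matrix.diagonal_apply]
      by_cases h : a = b
      · subst h; simp; ring
      · simp [h]
    simp_rw [e1, Finset.sum_sub_distrib]
    have e2 : ∑ a, ∑ b, (if a = b then (∑ j, A a j) * v a * v a else 0) =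
        ∑ a, ∑ b, A a b * v a ^ 2 := by
      refine Finset.sum_congr rfl fun a _ => ?_
      simp only [Finset.sum_ite_eq, Finset.mem_univ, if_true]
      rw [Finset.sum_mul, Finset.sum_mul]
      exact Finset.sum_congr rfl fun b _ => by ring
    have e3 : ∑ a, ∑ b, A a b * v b ^ 2 = ∑ a, ∑ b, A a b * v a ^ 2 := by
      rw [Finset.sum_comm]
      exact Finset.sum_congr rfl fun a _ => Finset.sum_congr rfl fun b _ => by rw [hA]
    have e4 : ∑ a, ∑ b, A a b * (v a - v b) ^ 2 =
        (∑ a, ∑ b, A a b * v a ^ 2) + (∑ a, ∑ b, A a b * v b ^ 2) -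
          2 * ∑ a, ∑ b, A a b * v a * v b := by
      rw [Finset.mul_sum, ← Finset.sum_add_distrib, ← Finset.sum_sub_distrib]
      refine Finset.sum_congr rfl fun a _ => ?_
      rw [Finset.mul_sum, ← Finset.sum_add_distrib, ← Finset.sum_sub_distrib]
      exact Finset.sum_congr rfl fun b _ => by ring
    rw [e2, e4, e3]
    ring
  rw [h1, h]
  ring

/-- Layer cake. -/
theorem layer {ι : Type*} [DecidableEq ι] (u : Finset ι) (g : ι → ℝ) :
    ∀ (m : ℕ) (A : ι → ℝ), (∀ p ∈ u, 0 ≤ A p) → (u.filter fun p => 0 < A p).card = m →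
      (∀ t > 0, ∑ p ∈ u.filter (fun p => t ≤ A p), g p ≤ 0) → ∑ p ∈ u, A p * g p ≤ 0 := by
  intro m
  induction m using Nat.strong_induction_on with
  | _ m ih =>
    intro A hA hm ht
    by_cases he : (u.filter fun p => 0 < A p) = ∅
    · refine le_of_eq (Finset.sum_eq_zero fun p hp => ?_)
      have : ¬ 0 < A p := fun h => by
        have : p ∈ u.filter fun p => 0 < A p := Finset.mem_filter.2 ⟨hp, h⟩
        rw [he] at this; simp at this
      rw [le_antisymm (not_lt.1 this) (hA p hp), zero_mul]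
    · obtain ⟨q, hq, hmin⟩ := Finset.exists_min_image (u.filter fun p => 0 < A p) A
        (Finset.nonempty_of_ne_empty he)
      have hq0 : 0 < A q := (Finset.mem_filter.1 hq).2
      have hsupp : ∀ p ∈ u, 0 < A p → A q ≤ A p := fun p hp h =>
        hmin p (Finset.mem_filter.2 ⟨hp, h⟩)
      let A' : ι → ℝ := fun p => if 0 < A p then A p - A q else 0
      have hA' : ∀ p ∈ u, 0 ≤ A' p := by
        intro p hp
        show 0 ≤ (if 0 < A p then A p - A q else 0)
        split_ifs with h
        · linarith [hsupp p hp h]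
        · exact le_rfl
      have hcard : (u.filter fun p => 0 < A' p).card < m := by
        rw [← hm]
        refine Finset.card_lt_card ⟨?_, ?_⟩
        · intro p hp
          rw [Finset.mem_filter] at hp ⊢
          refine ⟨hp.1, ?_⟩
          by_contra hc
          have : A' p = 0 := if_neg hc
          rw [this] at hp
          exact lt_irrefl _ hp.2
        · intro hsub
          have := hsub hq
          rw [Finset.mem_filter] at this
          have h2 : A' q = 0 := by show (if 0 < A q then A q - A q else 0) = 0; simp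
          rw [h2] at this
          exact lt_irrefl _ this.2
      have hthr : ∀ t > 0, ∑ p ∈ u.filter (fun p => t ≤ A' p), g p ≤ 0 := by
        intro t ht0
        have : (u.filter fun p => t ≤ A' p) = u.filter fun p => t + A q ≤ A p := by
          refine Finset.filter_congr fun p hp => ?_
          show (t ≤ (if 0 < A p then A p - A q else 0)) ↔ _
          split_ifs with h
          · constructor <;> intro h' <;> linarith
          · constructor <;> intro h' <;> linarith
        rw [this]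
        exact ht _ (by linarith)
      have h1 := ih _ hcard A' hA' rfl hthr
      have h2 : ∑ p ∈ u, A p * g p = ∑ p ∈ u, A' p * g p +
          A q * ∑ p ∈ u.filter (fun p => A q ≤ A p), g p := by
        rw [Finset.mul_sum, Finset.sum_filter, ← Finset.sum_add_distrib]
        refine Finset.sum_congr rfl fun p hp => ?_
        show _ = (if 0 < A p then A p - A q else 0) * g p + _
        by_cases h : 0 < A p
        · rw [if_pos h, if_pos (hsupp p hp h)]; ring
        · have h0 : A p = 0 := le_antisymm (not_lt.1 h) (hA p hp)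
          rw [if_neg h, if_neg (by rw [h0]; exact not_le.2 hq0), h0]; ring
      have h3 := mul_nonpos_of_nonneg_of_nonpos hq0.le (ht _ hq0)
      rw [h2]
      linarith

/-- The largest elements. -/
theorem exists_top {ι : Type*} [DecidableEq ι] (u : Finset ι) (A : ι → ℝ) :
    ∀ N : ℕ, N ≤ u.card → ∃ P ⊆ u, P.card = N ∧ ∀ p ∈ P, ∀ q ∈ u, q ∉ P → A q ≤ A p := by
  intro N
  induction N with
  | zero => exact fun _ => ⟨∅, by simp, by simp, by simp⟩
  | succ N ih =>
    intro hN
    obtain ⟨P, hP, hc, hm⟩ := ih (by omega)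
    have hne : (u \ P).Nonempty := by
      rw [← Finset.card_pos, Finset.card_sdiff_of_subset hP]; omega
    obtain ⟨q, hq, hmax⟩ := Finset.exists_max_image (u \ P) A hne
    rw [Finset.mem_sdiff] at hq
    refine ⟨insert q P, ?_, ?_, ?_⟩
    · intro x hx
      rcases Finset.mem_insert.1 hx with rfl | h
      · exact hq.1
      · exact hP h
    · rw [Finset.card_insert_of_notMem hq.2, hc]
    · intro p hp r hr hrn
      rw [Finset.mem_insert, not_or] at hrn
      rcases Finset.mem_insert.1 hp with rfl | h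
      · exact hmax r (Finset.mem_sdiff.2 ⟨hr, hrn.2⟩)
      · exact hm p h r hr hrn.2

/-- The reduction: from the threshold sets to the weights. -/
theorem reduce {ι : Type*} [DecidableEq ι] (u : Finset ι) (A c : ι → ℝ) (N : ℕ)
    (hN : N ≤ u.card) (hA : ∀ p ∈ u, 0 ≤ A p) (hc : ∀ p ∈ u, c p ≤ 2)
    (hT : ∀ t > 0, ∑ p ∈ u.filter (fun p => t ≤ A p), c p ≤
      ((u.filter (fun p => t ≤ A p)).card : ℝ) + N) :
    ∃ P ⊆ u, P.card = N ∧ ∑ p ∈ u, A p * c p ≤ ∑ p ∈ u, A p + ∑ p ∈ P, A p := by
  obtain ⟨P, hP, hcard, hm⟩ := exists_top u A N hN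
  refine ⟨P, hP, hcard, ?_⟩
  have key := layer u (fun p => c p - 1 - if p ∈ P then 1 else 0) _ A hA rfl (by
    intro t ht
    set T := u.filter (fun p => t ≤ A p) with hTdef
    have e : ∑ p ∈ T, (c p - 1 - if p ∈ P then (1:ℝ) else 0) =
        ∑ p ∈ T, c p - T.card - (T ∩ P).card := by
      rw [Finset.sum_sub_distrib, Finset.sum_sub_distrib, Finset.sum_ite_mem]
      simp
    rw [e]
    by_cases hs : T ⊆ P
    · rw [Finset.inter_eq_left.2 hs]
      have : ∑ p ∈ T, c p ≤ ∑ p ∈ T, 2 :=
        Finset.sum_le_sum fun p hp => hc p (Finset.mem_filter.1 hp).1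
      rw [Finset.sum_const, nsmul_eq_mul] at this
      linarith
    · obtain ⟨r, hr, hrP⟩ := Finset.not_subset.1 hs
      have hPT : P ⊆ T := by
        intro p hp
        rw [hTdef, Finset.mem_filter] at hr ⊢
        exact ⟨hP hp, hr.2.trans (hm p hp r hr.1 hrP)⟩
      rw [Finset.inter_eq_right.2 hPT, hcard]
      have := hT t ht
      linarith)
  have e : ∑ p ∈ u, A p * (c p - 1 - if p ∈ P then (1:ℝ) else 0) =
      ∑ p ∈ u, A p * c p - ∑ p ∈ u, A p - ∑ p ∈ P, A p := by
    have e1 : ∀ p, A p * (c p - 1 - if p ∈ P then (1:ℝ) else 0) =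
        A p * c p - A p - if p ∈ P then A p else 0 := by
      intro p; split_ifs <;> ring
    simp_rw [e1]
    rw [Finset.sum_sub_distrib, Finset.sum_sub_distrib, Finset.sum_ite_mem,
      Finset.inter_eq_right.2 hP]
  rw [e] at key
  linarith

section eig

variable {n : ℕ} {M : Matrix (Fin n) (Fin n) ℝ} (hM : M.IsHermitian)

theorem eig_qf (i : Fin n) : qf M (hM.eigenvectorBasis i) = hM.eigenvalues i := by
  rw [qf_eq hM, Finset.sum_eq_single i]
  · rw [real_inner_self_eq_norm_sq, hM.eigenvectorBasis.orthonormal.1]; norm_num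
  · intro b _ hb
    have h1 : inner ℝ (hM.eigenvectorBasis b) (hM.eigenvectorBasis i) = 0 :=
      hM.eigenvectorBasis.orthonormal.2 hb
    rw [h1]; ring
  · intro h; exact absurd (Finset.mem_univ _) h

/-- the weight of the pair `p` in the trace over the eigenvectors in `s` -/
noncomputable def cc (s : Finset (Fin n)) (p : Fin n × Fin n) : ℝ :=
  ∑ i ∈ s, (hM.eigenvectorBasis i p.1 - hM.eigenvectorBasis i p.2) ^ 2

theorem cc_univ (p : Fin n × Fin n) (hp : p.1 ≠ p.2) : cc hM Finset.univ p = 2 := by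
  unfold cc
  have h := hM.eigenvectorBasis.sum_sq_inner_right
    (EuclideanSpace.single p.1 (1:ℝ) - EuclideanSpace.single p.2 (1:ℝ))
  have h1 : ∀ i, inner ℝ (hM.eigenvectorBasis i)
      (EuclideanSpace.single p.1 (1:ℝ) - EuclideanSpace.single p.2 (1:ℝ)) =
      hM.eigenvectorBasis i p.1 - hM.eigenvectorBasis i p.2 := by
    intro i
    rw [inner_sub_right, EuclideanSpace.inner_single_right, EuclideanSpace.inner_single_right]
    simp
  simp_rw [h1] at h
  rw [h, EuclideanSpace.norm_sq_eq]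
  have h2 : ∀ x : Fin n, ‖(EuclideanSpace.single p.1 (1:ℝ) -
      EuclideanSpace.single p.2 (1:ℝ) : EuclideanSpace ℝ (Fin n)) x‖ ^ 2 =
      (if x = p.1 then 1 else 0) + (if x = p.2 then 1 else 0) := by
    intro x
    rw [PiLp.sub_apply, PiLp.single_apply, PiLp.single_apply]
    by_cases a : x = p.1
    · have : x ≠ p.2 := fun h => hp (a.symm.trans h)
      simp [a, hp]
    · by_cases b : x = p.2
      · simp [b, hp.symm]
      · simp [a, b]
  simp_rw [h2]
  rw [Finset.sum_add_distrib]
  simp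
  norm_num

theorem cc_le (s : Finset (Fin n)) (p : Fin n × Fin n) (hp : p.1 ≠ p.2) : cc hM s p ≤ 2 := by
  rw [← cc_univ hM p hp]
  exact Finset.sum_le_sum_of_subset_of_nonneg (Finset.subset_univ _) fun _ _ _ => sq_nonneg _

theorem trace_cc (B : Matrix (Fin n) (Fin n) ℝ) (hB : ∀ a b, B a b = B b a)
    (s : Finset (Fin n)) :
    ∑ i ∈ s, qf (wLap B) (hM.eigenvectorBasis i) = ∑ p ∈ U n, B p.1 p.2 * cc hM s p := by
  simp_rw [lap_qf B hB]
  rw [Finset.sum_comm]
  refine Finset.sum_congr rfl fun p _ => ?_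
  unfold cc
  rw [Finset.mul_sum]

theorem sq_sum_one (i : Fin n) : ∑ x, hM.eigenvectorBasis i x ^ 2 = 1 := by
  have h := hM.eigenvectorBasis.orthonormal.1 i
  have h2 := EuclideanSpace.norm_sq_eq (hM.eigenvectorBasis i)
  rw [h] at h2
  simp only [Real.norm_eq_abs, sq_abs] at h2
  linarith

theorem inner_zero (i j : Fin n) (hij : i ≠ j) :
    ∑ x, hM.eigenvectorBasis i x * hM.eigenvectorBasis j x = 0 := by
  have h : inner ℝ (hM.eigenvectorBasis i) (hM.eigenvectorBasis j) = 0 :=
    hM.eigenvectorBasis.orthonormal.2 hij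
  rw [inn_eq] at h
  exact h

end eig

/-- The inequality for `A` from the bounds for edge sets. -/
theorem of_edges {n : ℕ} (A : Matrix (Fin n) (Fin n) ℝ) (hw : IsWeight A) (k : ℕ)
    (hk1 : 1 ≤ k) (hk : k ≤ n - 1) (hL : (wLap A).IsHermitian) (s : Finset (Fin n))
    (hT : ∀ t > 0, ∑ p ∈ (U n).filter (fun p => t ≤ A p.1 p.2), cc hL s p ≤
      (((U n).filter (fun p => t ≤ A p.1 p.2)).card : ℝ) + ((k + 1).choose 2 : ℕ)) :
    ∃ P : Finset (Fin n × Fin n), P.card = (k + 1).choose 2 ∧ (∀ p ∈ P, p.1 < p.2) ∧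
      ∑ i ∈ s, hL.eigenvalues i ≤
        (∑ i, ∑ j, if i < j then A i j else 0) + ∑ p ∈ P, A p.1 p.2 := by
  have hsym : ∀ a b, A a b = A b a := fun a b => hw.1.apply b a
  obtain ⟨P, hP, hcard, hle⟩ := reduce (U n) (fun p => A p.1 p.2) (cc hL s) ((k + 1).choose 2)
    (by rw [card_U]; exact Nat.choose_le_choose 2 (by omega))
    (fun p _ => hw.2.1 _ _)
    (fun p hp => cc_le hL s p ((Finset.mem_filter.1 hp).2.ne)) hT
  refine ⟨P, hcard, fun p hp => (Finset.mem_filter.1 (hP hp)).2, ?_⟩
  rw [sum_U]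
  refine le_trans (le_of_eq ?_) hle
  rw [← trace_cc hL A hsym s]
  exact Finset.sum_congr rfl fun i _ => (eig_qf hL i).symm

open Classical in
theorem lap_eq {n : ℕ} (G : SimpleGraph (Fin n)) : G.lapMatrix ℝ = wLap (G.adjMatrix ℝ) := by
  unfold wLap SimpleGraph.lapMatrix SimpleGraph.degMatrix
  congr 1
  congr 1
  funext i
  simp [SimpleGraph.adjMatrix_apply, Finset.sum_boole, ← SimpleGraph.card_neighborFinset_eq_degree,
    SimpleGraph.neighborFinset_eq_filter]

open Classical in
theorem adj_sum {n : ℕ} (G : SimpleGraph (Fin n)) :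
    ∑ p ∈ U n, (G.adjMatrix ℝ) p.1 p.2 = G.edgeFinset.card := by
  have h := sum_pairs (n := n) (fun a b => G.adjMatrix ℝ a b)
    (fun a b => by simp [SimpleGraph.adjMatrix_apply, G.adj_comm a b]) (fun a => by simp)
  have h2 : ∑ a, ∑ b, G.adjMatrix ℝ a b = ((∑ a, G.degree a : ℕ) : ℝ) := by
    rw [Nat.cast_sum]
    refine Finset.sum_congr rfl fun a _ => ?_
    simp [SimpleGraph.adjMatrix_apply, Finset.sum_boole,
      ← SimpleGraph.card_neighborFinset_eq_degree, SimpleGraph.neighborFinset_eq_filter]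
  rw [h2, G.sum_degrees_eq_twice_card_edges] at h
  push_cast at h
  linarith

theorem card_lt (N k : ℕ) (hk : k ≤ N) :
    (Finset.univ.filter fun j : Fin N => (j : ℕ) < k).card = k := by
  rw [← Finset.card_image_of_injective _ Fin.val_injective]
  have : (Finset.univ.filter fun j : Fin N => (j : ℕ) < k).image Fin.val = Finset.range k := by
    ext x
    simp only [Finset.mem_image, Finset.mem_filter, Finset.mem_univ, true_and, Finset.mem_range]
    constructor
    · rintro ⟨j, hj, rfl⟩; exact hj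
    · intro hx; exact ⟨⟨x, by omega⟩, hx, rfl⟩
  rw [this, Finset.card_range]

/-- The sum over an orthonormal family is bounded by the sum of some `k` eigenvalues. -/
theorem kf_set {n : ℕ} {M : Matrix (Fin n) (Fin n) ℝ} (hM : M.IsHermitian)
    (b : OrthonormalBasis (Fin n) ℝ (EuclideanSpace ℝ (Fin n))) (s : Finset (Fin n)) :
    ∃ s' : Finset (Fin n), s'.card = s.card ∧ ∑ i ∈ s, qf M (b i) ≤ ∑ i ∈ s', hM.eigenvalues i := by
  have hk : s.card ≤ n := by simpa using s.card_le_univ
  refine ⟨(Finset.univ.filter fun j : Fin (Fintype.card (Fin n)) => (j : ℕ) < s.card).map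
    (idx n).toEmbedding, ?_, ?_⟩
  · rw [Finset.card_map, card_lt _ _ (by simpa using hk)]
  · rw [Finset.sum_map]
    have h := kyfan_le hM s.card hk (fun j => b (s.equivFin.symm j)) (by
      refine b.orthonormal.comp (fun j => ((s.equivFin.symm j : s) : Fin n)) ?_
      exact Subtype.val_injective.comp s.equivFin.symm.injective)
    rw [topSum_eq hM s.card hk, ← Finset.sum_filter] at h
    have e : ∑ i ∈ s, qf M (b i) = ∑ j : Fin s.card, qf M (b (s.equivFin.symm j)) := by
      rw [s.equivFin.symm.sum_comp (fun x : s => qf M (b x))]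
      rw [Finset.sum_coe_sort s (fun i => qf M (b i))]
    rw [e]
    refine h.trans (le_of_eq (Finset.sum_congr rfl fun j _ => ?_))
    exact (eig_idx hM j).symm

/-- Part (1). -/
theorem part1 (n k : ℕ) (hk1 : 1 ≤ k) (hk : k ≤ n - 1) (A : Matrix (Fin n) (Fin n) ℝ)
    (hw : IsWeight A) (hB : ∀ t > 0, BrouwerAt (thr A t) k) : WeightedAt A k := by
  classical
  intro hL s hs
  have hsym : ∀ a b, A a b = A b a := fun a b => hw.1.apply b a
  refine of_edges A hw k hk1 hk hL s fun t ht => ?_
  set G := thr A t with hG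
  set T := (U n).filter (fun p => t ≤ A p.1 p.2) with hTd
  have hadj : ∀ p ∈ U n, (G.adjMatrix ℝ) p.1 p.2 = if t ≤ A p.1 p.2 then 1 else 0 := by
    intro p hp
    have hne : p.1 ≠ p.2 := ((Finset.mem_filter.1 hp).2).ne
    rw [SimpleGraph.adjMatrix_apply]
    refine if_congr ?_ rfl rfl
    show (p.1 ≠ p.2 ∧ t ≤ A p.1 p.2 ∧ t ≤ A p.2 p.1) ↔ _
    rw [hsym p.2 p.1]
    exact ⟨fun h => h.2.1, fun h => ⟨hne, h, h⟩⟩
  have hcT : (T.card : ℝ) = G.edgeFinset.card := by
    rw [← adj_sum G, Finset.sum_congr rfl hadj, ← Finset.sum_filter, Finset.sum_const,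
      nsmul_eq_mul, mul_one]
  have hsG : ∀ a b, (G.adjMatrix ℝ) a b = (G.adjMatrix ℝ) b a := fun a b => by
    simp [SimpleGraph.adjMatrix_apply, G.adj_comm a b]
  have e1 : ∑ p ∈ T, cc hL s p = ∑ i ∈ s, qf (G.lapMatrix ℝ) (hL.eigenvectorBasis i) := by
    rw [lap_eq, trace_cc hL (G.adjMatrix ℝ) hsG s, hTd, Finset.sum_filter]
    refine Finset.sum_congr rfl fun p hp => ?_
    rw [hadj p hp]
    split_ifs <;> ring
  have hGH : (G.lapMatrix ℝ).IsHermitian := by
    rw [lap_eq]
    ext i j
    simp only [wLap, Matrix.conjTranspose_apply, Matrix.sub_apply, Matrix.diagonal_apply,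
      star_trivial]
    rw [hsG j i]
    by_cases h : i = j
    · subst h; rfl
    · rw [if_neg h, if_neg (Ne.symm h)]
  obtain ⟨s', hs', hle⟩ := kf_set hGH hL.eigenvectorBasis s
  rw [e1, hcT]
  exact hle.trans (hB t ht hGH s' (hs'.trans hs))

/-- Brouwer's inequality, from the two-parameter inequality of the starting files. -/
theorem brouwer {n : ℕ} (G : SimpleGraph (Fin n)) (k : ℕ) (hk : k + 1 ≤ n) : BrouwerAt G k := by
  classical
  intro hL s hs
  have h1 : ∑ i ∈ s, hL.eigenvalues i ≤ topSum hL k := by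
    subst hs
    have h := kyfan_le hL s.card (by omega)
      (fun j => hL.eigenvectorBasis (s.equivFin.symm j)) (by
        refine hL.eigenvectorBasis.orthonormal.comp
          (fun j => ((s.equivFin.symm j : s) : Fin n)) ?_
        exact Subtype.val_injective.comp s.equivFin.symm.injective)
    have e : ∑ i ∈ s, hL.eigenvalues i =
        ∑ j : Fin s.card, qf (G.lapMatrix ℝ) (hL.eigenvectorBasis (s.equivFin.symm j)) := by
      rw [s.equivFin.symm.sum_comp
        (fun x : s => qf (G.lapMatrix ℝ) (hL.eigenvectorBasis x))]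
      rw [Finset.sum_coe_sort s (fun i => qf (G.lapMatrix ℝ) (hL.eigenvectorBasis i))]
      exact Finset.sum_congr rfl fun i _ => (eig_qf hL i).symm
    rw [e]
    exact h
  rw [topSum_eq hL k (by omega)] at h1
  have h2 := Pool.Agent.Helper827.Brou.twoParam G k k le_rfl (by simpa using hk)
  have h3 : (∑ j : Fin (Fintype.card (Fin n)), if (j : ℕ) < k then hL.eigenvalues₀ j else 0) =
      ∑ j : Fin (Fintype.card (Fin n)),
        if (j : ℕ) < k then Pool.Agent.Helper827.Brou.ev G j else 0 := by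
    unfold Pool.Agent.Helper827.Brou.ev
    congr!
  rw [h3] at h1
  have h4 : (((k + 1).choose 2 : ℕ) : ℝ) = (k : ℝ) * (k + 1) / 2 := by
    rw [Nat.cast_choose_two]; push_cast; ring
  rw [h4]
  refine h1.trans ?_
  have h5 : (∑ j : Fin (Fintype.card (Fin n)),
      if (j : ℕ) < k then Pool.Agent.Helper827.Brou.ev G j else 0) ≤
      (G.edgeFinset.card : ℝ) + (k : ℝ) * (k + 1) / 2 := by linarith
  convert h5

/-- The weighted Brouwer inequality. -/
theorem weighted (n k : ℕ) (hk1 : 1 ≤ k) (hk : k ≤ n - 1) (A : Matrix (Fin n) (Fin n) ℝ)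
    (hw : IsWeight A) : WeightedAt A k :=
  part1 n k hk1 hk A hw fun t _ => brouwer (thr A t) k (by omega)

end Pool.Agent.H212.WB
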